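import Pool.Agent.Q101.BanachV

set_option autoImplicit false

namespace Pool.Agent.Results.MP_25e654_an.NotBanach

open Q101.BanachV

/-- There are separable Banach spaces `X`, `Y`, a Banach subspace `M` of `Y` and a Borel map
`φ : X → Y` linear modulo `M` for which `V = φ(X) + M` (a linear subspace) carries no complete norm
whose topology is finer than the one inherited from `Y`. -/
theorem result : ∃ (X Y : Type) (_ : NormedAddCommGroup X) (_ : NormedSpace ℝ X)
    (_ : CompleteSpace X) (_ : TopologicalSpace.SeparableSpace X) (_ : NormedAddCommGroup Y)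
    (_ : NormedSpace ℝ Y) (_ : CompleteSpace Y) (_ : TopologicalSpace.SeparableSpace Y)
    (M : Submodule ℝ Y) (NM : M → ℝ) (φ : X → Y) (V : Submodule ℝ Y),
    IsCompleteNorm NM ∧ (∀ m : M, ‖(m : Y)‖ ≤ NM m) ∧
    @Measurable X Y (borel X) (borel Y) φ ∧
    (∀ (a b : ℝ) (x y : X), φ (a • x + b • y) - (a • φ x + b • φ y) ∈ M) ∧
    (V : Set Y) = {y | ∃ x, ∃ m ∈ M, y = φ x + m} ∧
    ¬ ∃ (N : V → ℝ) (C : ℝ), IsCompleteNorm N ∧ ∀ v : V, ‖(v : Y)‖ ≤ C * N v := by
  have hs1 := separable I
  have hs2 := separable ℕ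
  let V : Submodule ℝ (L1 ℕ × L1 I) :=
    { carrier := {y | ∃ x, ∃ m ∈ MM, y = phi x + m}
      zero_mem' := by
        refine ⟨0, -phi 0, ?_, (add_neg_cancel _).symm⟩
        have h := phi_linear_mod 0 0 0 0
        simp only [zero_smul, add_zero, sub_zero] at h
        exact neg_mem h
      add_mem' := by
        rintro _ _ ⟨x, m, hm, rfl⟩ ⟨y, m', hm', rfl⟩
        have h := phi_linear_mod 1 1 x y
        simp only [one_smul] at h
        refine ⟨x + y, (m + m') - (phi (x + y) - (phi x + phi y)),
          sub_mem (add_mem hm hm') h, ?_⟩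
        abel
      smul_mem' := by
        rintro c _ ⟨x, m, hm, rfl⟩
        have h := phi_linear_mod c 0 x 0
        simp only [zero_smul, add_zero] at h
        refine ⟨c • x, c • m - (phi (c • x) - c • phi x), sub_mem (MM.smul_mem c hm) h, ?_⟩
        rw [smul_add]
        abel }
  refine ⟨L1 I, L1 ℕ × L1 I, inferInstance, inferInstance, inferInstance, hs1, inferInstance,
    inferInstance, inferInstance, inferInstance, MM, NM, phi, V, NM_complete, norm_le_NM,
    measurable_phi, phi_linear_mod, rfl, ?_⟩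
  rintro ⟨N, C, hN, hC⟩
  exact not_banach (V := V) (fun y => Iff.rfl) hN hC

end Pool.Agent.Results.MP_25e654_an.NotBanach
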